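import Mathlib

namespace Pool.Agent.Results.MP_22e672_co.CubeFails

/-- `P` is a `d`-dimensional convex polytope in `ℝ^d`: the convex hull of finitely many points,
with nonempty interior. -/
def IsPolytope {d : ℕ} (P : Set (Fin d → ℝ)) : Prop :=
  (∃ V : Set (Fin d → ℝ), V.Finite ∧ P = convexHull ℝ V) ∧ (interior P).Nonempty

/-- `F` is a face of `P`: either `P` itself, or the intersection of `P` with a supporting
hyperplane `{x | f x = c}` of `P` (`f` a nonzero linear functional with `f ≤ c` on `P` and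
`f = c` somewhere on `P`). -/
def IsFace {d : ℕ} (P F : Set (Fin d → ℝ)) : Prop :=
  F = P ∨ ∃ (f : (Fin d → ℝ) →ₗ[ℝ] ℝ) (c : ℝ), f ≠ 0 ∧ (∀ x ∈ P, f x ≤ c) ∧
    (∃ x ∈ P, f x = c) ∧ F = {x ∈ P | f x = c}

/-- `F` has an affine hull of dimension `i`. -/
def HasDim {d : ℕ} (F : Set (Fin d → ℝ)) (i : ℕ) : Prop :=
  F.Nonempty ∧ Module.finrank ℝ (affineSpan ℝ F).direction = i

/-- The set `X_i(P)` of boundary points of `P` lying in no `i`-dimensional face of `P`. -/
def offFaces {d : ℕ} (P : Set (Fin d → ℝ)) (i : ℕ) : Set (Fin d → ℝ) :=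
  {b | b ∈ frontier P ∧ ∀ F, IsFace P F → HasDim F i → b ∉ F}

/-- The point `b` of `P` is illuminated by the source `s`: the ray from `s` through `b` meets the
interior of `P`, and the closed segment from `s` to `b` meets `P` in `b` only. -/
def Illuminated {d : ℕ} (P : Set (Fin d → ℝ)) (s b : Fin d → ℝ) : Prop :=
  (∃ t : ℝ, 0 ≤ t ∧ s + t • (b - s) ∈ interior P) ∧ segment ℝ s b ∩ P = {b}

/-- The cube `[-1,1]^d`. -/
def cube (d : ℕ) : Set (Fin d → ℝ) := Set.pi Set.univ (fun _ => Set.Icc (-1) 1)

theorem interior_cube (d : ℕ) : interior (cube d) = Set.pi Set.univ (fun _ => Set.Ioo (-1) 1) := by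
  rw [cube, interior_pi_set Set.finite_univ]
  simp only [interior_Icc]

theorem isPolytope_cube (d : ℕ) : IsPolytope (cube d) := by
  refine ⟨⟨Set.pi Set.univ (fun _ => {-1, 1}), ?_, ?_⟩, ?_⟩
  · exact Set.Finite.pi (fun _ => Set.toFinite _)
  · rw [convexHull_pi, cube]
    congr 1
    ext i : 1
    rw [convexHull_pair, segment_eq_Icc (by norm_num)]
  · rw [interior_cube]
    exact ⟨0, fun i _ => by simp⟩

/-- The point with coordinates `±1` on `T` and zero elsewhere. -/
noncomputable def pt {d : ℕ} (T : Finset (Fin d)) (σ : Fin d → Bool) : Fin d → ℝ :=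
  fun a => if a ∈ T then (if σ a then 1 else -1) else 0

theorem pt_mem_cube {d : ℕ} (T : Finset (Fin d)) (σ : Fin d → Bool) : pt T σ ∈ cube d := by
  intro a _
  simp only [pt]
  split_ifs <;> simp

theorem pt_mem_offFaces {d : ℕ} (T : Finset (Fin d)) (hT : T.Nonempty) (σ : Fin d → Bool) (i : ℕ)
    (hi : i + T.card < d) : pt T σ ∈ offFaces (cube d) i := by
  classical
  refine ⟨?_, ?_⟩
  · rw [frontier, Set.mem_sdiff]
    refine ⟨subset_closure (pt_mem_cube T σ), ?_⟩
    rw [interior_cube]
    intro h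
    obtain ⟨a, ha⟩ := hT
    have h1 := h a (Set.mem_univ a)
    simp only [pt, ha, if_true] at h1
    split_ifs at h1 <;> simp at h1
  · rintro F hF ⟨-, hdim⟩ hb
    have hmem : ∀ a ∉ T, ∀ r : ℝ, -1 ≤ r → r ≤ 1 → pt T σ + r • Pi.single a (1 : ℝ) ∈ cube d := by
      intro a ha r h1 h2 b _
      by_cases hba : b = a
      · subst hba
        simp [pt, ha, h1, h2]
      · have := pt_mem_cube T σ b (Set.mem_univ b)
        simpa [Pi.single_apply, hba] using this
    have hin : ∀ a ∉ T, (Pi.single a (1 : ℝ) : Fin d → ℝ) ∈ (affineSpan ℝ F).direction := by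
      intro a ha
      have hF1 : pt T σ + (1 : ℝ) • Pi.single a (1 : ℝ) ∈ F := by
        rcases hF with rfl | ⟨f, c, hf, hle, -, rfl⟩
        · exact hmem a ha 1 (by norm_num) le_rfl
        · refine ⟨hmem a ha 1 (by norm_num) le_rfl, ?_⟩
          have h1 := hle _ (hmem a ha 1 (by norm_num) le_rfl)
          have h2 := hle _ (hmem a ha (-1) le_rfl (by norm_num))
          have h3 := hb.2
          rw [map_add, map_smul] at h1 h2 ⊢
          rw [h3] at h1 h2 ⊢
          simp only [smul_eq_mul] at h1 h2 ⊢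
          linarith
      have h4 := AffineSubspace.vsub_mem_direction (subset_affineSpan ℝ F hF1)
        (subset_affineSpan ℝ F hb)
      simpa using h4
    have hli : LinearIndependent ℝ
        (fun a : {a // a ∉ T} => (⟨Pi.single a.1 (1 : ℝ), hin a.1 a.2⟩ :
          (affineSpan ℝ F).direction)) := by
      apply LinearIndependent.of_comp (affineSpan ℝ F).direction.subtype
      have h5 := (Pi.basisFun ℝ (Fin d)).linearIndependent.comp
        (fun a : {a // a ∉ T} => a.1) Subtype.val_injective
      have h6 : (⇑(affineSpan ℝ F).direction.subtype ∘ fun a : {a // a ∉ T} =>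
          (⟨Pi.single a.1 (1 : ℝ), hin a.1 a.2⟩ : (affineSpan ℝ F).direction))
          = (⇑(Pi.basisFun ℝ (Fin d)) ∘ fun a : {a // a ∉ T} => a.1) := by
        funext a
        simp [Pi.basisFun_apply]
      rw [h6]
      exact h5
    have h7 := hli.fintype_card_le_finrank
    rw [hdim, Fintype.card_subtype_compl, Fintype.card_fin, Fintype.card_coe] at h7
    omega

theorem sign_of_illuminated {d : ℕ} (T : Finset (Fin d)) (σ : Fin d → Bool) (s : Fin d → ℝ)
    (h : Illuminated (cube d) s (pt T σ)) (a : Fin d) (ha : a ∈ T) :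
    decide (1 < s a) = σ a := by
  obtain ⟨⟨t, ht0, ht⟩, hseg⟩ := h
  have hint := ht
  rw [interior_cube] at hint
  have ha1 := hint a (Set.mem_univ a)
  have ht1 : 1 < t := by
    by_contra hcon
    push Not at hcon
    have hmem : s + t • (pt T σ - s) ∈ segment ℝ s (pt T σ) := by
      rw [segment_eq_image']
      exact ⟨t, ⟨ht0, hcon⟩, rfl⟩
    have h2 : s + t • (pt T σ - s) ∈ segment ℝ s (pt T σ) ∩ cube d :=
      ⟨hmem, interior_subset ht⟩
    rw [hseg] at h2
    rw [Set.mem_singleton_iff] at h2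
    rw [h2] at ha1
    simp only [pt, ha, if_true] at ha1
    split_ifs at ha1 <;> simp at ha1
  simp only [Pi.add_apply, Pi.smul_apply, Pi.sub_apply, smul_eq_mul, pt, ha, if_true,
    Set.mem_Ioo] at ha1
  cases hσ : σ a
  · rw [hσ] at ha1
    simp only [Bool.false_eq_true, if_false] at ha1
    rw [decide_eq_false_iff_not]
    intro hs
    nlinarith
  · rw [hσ] at ha1
    simp only [if_true] at ha1
    rw [decide_eq_true_iff]
    nlinarith

/-- Combinatorial core: there is no family of at most `2^t` sign vectors of length `d ≥ t+2`,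
`t ≥ 2`, whose restrictions to every `t`-set of coordinates realise all patterns. -/
theorem no_array {α : Type*} {d t : ℕ} (ht : 2 ≤ t) (htd : t + 2 ≤ d) (S : Finset α)
    (g : α → Fin d → Bool) (hS : S.card ≤ 2 ^ t)
    (hcov : ∀ T : Finset (Fin d), T.card = t → ∀ σ : Fin d → Bool, ∃ s ∈ S, ∀ a ∈ T, g s a = σ a) :
    False := by
  classical
  have hinj : ∀ T : Finset (Fin d), T.card = t → ∀ s ∈ S, ∀ s' ∈ S, (∀ a ∈ T, g s a = g s' a) →
      s = s' := by
    intro T hT
    let F : α → (T → Bool) := fun s a => g s a.1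
    have himg : S.image F = Finset.univ := by
      rw [Finset.eq_univ_iff_forall]
      intro σ
      rw [Finset.mem_image]
      obtain ⟨s, hs, h⟩ := hcov T hT (fun a => if h : a ∈ T then σ ⟨a, h⟩ else false)
      refine ⟨s, hs, ?_⟩
      ext a
      have := h a.1 a.2
      simp only [F]
      rw [this]
      simp
    have hc : (S.image F).card = S.card := by
      apply le_antisymm Finset.card_image_le
      rw [himg, Finset.card_univ, Fintype.card_fun, Fintype.card_bool, Fintype.card_coe, hT]
      exact hS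
    have hi := Finset.card_image_iff.mp hc
    intro s hs s' hs' h
    apply hi hs hs'
    ext a
    exact h a.1 a.2
  -- choose the coordinates
  obtain ⟨T, hT⟩ : ∃ T : Finset (Fin d), T.card = t := by
    obtain ⟨T, -, hT⟩ := Finset.exists_subset_card_eq
      (show t ≤ (Finset.univ : Finset (Fin d)).card by simp; omega)
    exact ⟨T, hT⟩
  obtain ⟨j1, hj1, j2, hj2, hj⟩ := Finset.one_lt_card.mp (show 1 < T.card by omega)
  have hTc : 1 < Tᶜ.card := by
    rw [Finset.card_compl, Fintype.card_fin, hT]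
    omega
  obtain ⟨k1, hk1, k2, hk2, hk⟩ := Finset.one_lt_card.mp hTc
  rw [Finset.mem_compl] at hk1 hk2
  obtain ⟨r0, hr0, h0⟩ := hcov T hT (fun _ => false)
  obtain ⟨r1, hr1, h1⟩ := hcov T hT (fun a => decide (a = j1))
  obtain ⟨r2, hr2, h2⟩ := hcov T hT (fun a => decide (a = j2))
  have hne : ∀ k ∉ T, ∀ j ∈ T, ∀ r ∈ S, (∀ a ∈ T, g r a = decide (a = j)) → g r0 k ≠ g r k := by
    intro k hk j hj' r hr hrT heq
    have hcard : (insert k (T.erase j)).card = t := by
      rw [Finset.card_insert_of_notMem (fun h => hk (Finset.mem_of_mem_erase h)),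
        Finset.card_erase_of_mem hj']
      omega
    have := hinj _ hcard r0 hr0 r hr (by
      intro a ha
      rw [Finset.mem_insert] at ha
      rcases ha with rfl | ha
      · exact heq
      · rw [Finset.mem_erase] at ha
        rw [h0 a ha.2, hrT a ha.2]
        simp [ha.1])
    subst this
    have e1 := h0 j hj'
    have e2 := hrT j hj'
    rw [e1] at e2
    simp at e2
  have hagree : ∀ k ∉ T, g r1 k = g r2 k := by
    intro k hk
    have e1 := hne k hk j1 hj1 r1 hr1 h1
    have e2 := hne k hk j2 hj2 r2 hr2 h2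
    cases h : g r0 k <;> cases h' : g r1 k <;> cases h'' : g r2 k <;> simp_all
  have hcard : (insert k1 (insert k2 ((T.erase j1).erase j2))).card = t := by
    rw [Finset.card_insert_of_notMem, Finset.card_insert_of_notMem, Finset.card_erase_of_mem,
      Finset.card_erase_of_mem hj1]
    · omega
    · rw [Finset.mem_erase]
      exact ⟨hj.symm, hj2⟩
    · intro h
      exact hk2 (Finset.mem_of_mem_erase (Finset.mem_of_mem_erase h))
    · rw [Finset.mem_insert]
      rintro (h | h)
      · exact hk h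
      · exact hk1 (Finset.mem_of_mem_erase (Finset.mem_of_mem_erase h))
  have := hinj _ hcard r1 hr1 r2 hr2 (by
    intro a ha
    rw [Finset.mem_insert, Finset.mem_insert] at ha
    rcases ha with rfl | rfl | ha
    · exact hagree _ hk1
    · exact hagree _ hk2
    · rw [Finset.mem_erase, Finset.mem_erase] at ha
      rw [h1 a ha.2.2, h2 a ha.2.2]
      simp [ha.1, ha.2.1])
  subst this
  have e1 := h1 j1 hj1
  have e2 := h2 j1 hj1
  rw [e1] at e2
  simp [hj] at e2

/-- For every `d` and every `i` with `1 ≤ i ≤ d - 3` there is a `d`-dimensional convex polytope `P`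
such that no set of at most `2^(d-1-i)` points outside `P` illuminates `X_i(P)`. -/
theorem result (d i : ℕ) (h1 : 1 ≤ i) (h2 : i + 3 ≤ d) :
    ∃ P : Set (Fin d → ℝ), IsPolytope P ∧
      ∀ S : Finset (Fin d → ℝ), S.card ≤ 2 ^ (d - 1 - i) → (∀ s ∈ S, s ∉ P) →
        ¬ (∀ b ∈ offFaces P i, ∃ s ∈ S, Illuminated P s b) := by
  refine ⟨cube d, isPolytope_cube d, ?_⟩
  intro S hS _ hill
  refine no_array (t := d - 1 - i) (d := d) (by omega) (by omega) S
    (fun s a => decide (1 < s a)) hS ?_
  intro T hT σ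
  obtain ⟨s, hs, h⟩ := hill (pt T σ) (pt_mem_offFaces T
    (by rw [← Finset.card_pos]; omega) σ i (by omega))
  exact ⟨s, hs, fun a ha => sign_of_illuminated T σ s h a ha⟩

end Pool.Agent.Results.MP_22e672_co.CubeFails
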